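import Mathlib
import Pool.Agent.R29.Tutte

set_option autoImplicit false

/-!
# 3-connectivity is not determined by the Tutte polynomial (MP_f03b0a_co, Q2)

Two connected graphs with six vertices and thirteen edges (two pairs of parallel edges each) which
have the same Tutte polynomial; one is 3-connected, in the other the vertex `5` has only the two
neighbours `0` and `3`.
-/

namespace Pool.Agent.Results.MP_f03b0a_co.ThreeConnectivity

open Finset

variable {V E : Type}

/-- The simple graph on `V` in which two different vertices are adjacent if some edge in `A` of the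
multigraph (given by the ends `ends e = (u, v)` of its edges `e`) joins them. -/
def under (ends : E → V × V) (A : Finset E) : SimpleGraph V :=
  SimpleGraph.fromRel fun u v => ∃ e ∈ A, ends e = (u, v)

/-- `k(A)`: the number of the connected components of the spanning subgraph `(V, A)`. -/
noncomputable def comps (ends : E → V × V) (A : Finset E) : ℕ :=
  Nat.card (under ends A).ConnectedComponent

/-- The rank `r(A) = |V| - k(A)`. -/
noncomputable def rank [Fintype V] (ends : E → V × V) (A : Finset E) : ℕ :=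
  Fintype.card V - comps ends A

/-- The Tutte polynomial `∑_A (x-1)^(r(E)-r(A)) (y-1)^(|A|-r(A))` with `x = X 0` and `y = X 1`. -/
noncomputable def tutte [Fintype V] [Fintype E] (ends : E → V × V) : MvPolynomial (Fin 2) ℤ :=
  ∑ A : Finset E, (MvPolynomial.X 0 - 1) ^ (rank ends univ - rank ends A) *
    (MvPolynomial.X 1 - 1) ^ (A.card - rank ends A)

/-- The multigraph is connected. -/
def IsConnected [Fintype E] (ends : E → V × V) : Prop := (under ends univ).Connected

/-- The multigraph is 3-connected: it has at least four vertices and stays connected after deleting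
any set of at most two vertices. -/
def IsThreeConnected [Fintype V] [Fintype E] (ends : E → V × V) : Prop :=
  4 ≤ Fintype.card V ∧
    ∀ S : Finset V, S.card ≤ 2 → ((under ends univ).induce {v | v ∉ S}).Connected

/-- the 3-connected graph -/
def G : Fin 13 → Fin 6 × Fin 6 :=
  ![(0,1),(0,2),(0,3),(0,4),(0,4),(0,5),(1,2),(1,3),(1,3),(1,4),(2,4),(2,5),(3,5)]

/-- the graph with the cut `{0, 3}` -/
def H : Fin 13 → Fin 6 × Fin 6 :=
  ![(0,1),(0,2),(0,4),(0,5),(0,5),(1,2),(1,2),(1,3),(1,4),(2,3),(2,4),(3,4),(3,5)]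

theorem tutte_G_H : tutte G = tutte H := by
  have h : Pool.Agent.R29.tutte G = Pool.Agent.R29.tutte H := by
    apply Pool.Agent.R29.tutte_eq_of_poly (by norm_num) (by norm_num)
    decide +kernel
  exact h

theorem adj_iff (ends : E → V × V) (A : Finset E) (u v : V) :
    (under ends A).Adj u v ↔ u ≠ v ∧ ∃ e ∈ A, ends e = (u, v) ∨ ends e = (v, u) :=
  Pool.Agent.R29.under_adj ends A u v

/-- connectivity from edges leaving all sets of vertices -/
theorem connected_of_cuts {W : Type} (K : SimpleGraph W) (w : W)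
    (h : ∀ T : Set W, w ∈ T → T ≠ Set.univ → ∃ a ∈ T, ∃ b ∉ T, K.Adj a b) : K.Connected := by
  rw [SimpleGraph.connected_iff_exists_forall_reachable]
  refine ⟨w, ?_⟩
  by_contra hcon
  push Not at hcon
  obtain ⟨x, hx⟩ := hcon
  obtain ⟨a, ha, b, hb, hab⟩ := h {x | K.Reachable w x} (SimpleGraph.Reachable.refl w)
    (fun hT => hx (by
      have : x ∈ {x | K.Reachable w x} := by rw [hT]; trivial
      exact this))
  exact hb (SimpleGraph.Reachable.trans ha hab.reachable)

/-- the cut condition for `G` after deleting at most two vertices, as a finite check -/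
theorem cuts_G : ∀ S : Finset (Fin 6), S.card ≤ 2 → ∀ T : Finset (Fin 6), T ⊆ Sᶜ → T.Nonempty →
    T ≠ Sᶜ → ∃ e : Fin 13, ((G e).1 ∈ T ∧ (G e).2 ∈ Sᶜ \ T) ∨ ((G e).2 ∈ T ∧ (G e).1 ∈ Sᶜ \ T) := by
  decide +kernel

theorem three_G : IsThreeConnected G := by
  classical
  refine ⟨by simp, ?_⟩
  intro S hS
  obtain ⟨w, hw⟩ : ∃ w, w ∉ S := by
    by_contra hcon
    push Not at hcon
    have : S = univ := eq_univ_of_forall hcon
    rw [this] at hS
    simp at hS
  refine connected_of_cuts _ ⟨w, hw⟩ ?_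
  intro T hwT hT
  let T' : Finset (Fin 6) := univ.filter fun v => ∃ h : v ∉ S, (⟨v, h⟩ : {v | v ∉ S}) ∈ T
  have hT'S : T' ⊆ Sᶜ := by
    intro v hv
    obtain ⟨-, h, -⟩ := mem_filter.mp hv
    exact mem_compl.mpr h
  have hne : T'.Nonempty := ⟨w, mem_filter.mpr ⟨mem_univ _, hw, hwT⟩⟩
  have hT' : T' ≠ Sᶜ := by
    intro hcon
    apply hT
    ext ⟨v, hv⟩
    simp only [Set.mem_univ, iff_true]
    have h1 : v ∈ T' := by rw [hcon]; exact mem_compl.mpr hv
    obtain ⟨-, h, h2⟩ := mem_filter.mp h1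
    exact h2
  obtain ⟨e, he⟩ := cuts_G S hS T' hT'S hne hT'
  have key : ∀ a b : Fin 6, a ∈ T' → b ∈ Sᶜ \ T' → (∃ e : Fin 13, G e = (a, b) ∨ G e = (b, a)) →
      ∃ a' ∈ T, ∃ b' ∉ T, ((under G univ).induce {v | v ∉ S}).Adj a' b' := by
    rintro a b ha hb ⟨e, he⟩
    obtain ⟨-, ha1, ha2⟩ := mem_filter.mp ha
    obtain ⟨hb1, hb2⟩ := mem_sdiff.mp hb
    have hb3 : b ∉ S := mem_compl.mp hb1
    refine ⟨⟨a, ha1⟩, ha2, ⟨b, hb3⟩, fun hcon => hb2 (mem_filter.mpr ⟨mem_univ _, hb3, hcon⟩), ?_⟩
    rw [SimpleGraph.comap_adj, adj_iff]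
    exact ⟨fun hcon => hb2 (by
      have : a = b := hcon
      rw [← this]; exact ha), e, mem_univ _, he⟩
  rcases he with ⟨h1, h2⟩ | ⟨h1, h2⟩
  · exact key _ _ h1 h2 ⟨e, Or.inl rfl⟩
  · exact key _ _ h1 h2 ⟨e, Or.inr rfl⟩

theorem connected_of_three {V E : Type} [Fintype V] [Fintype E] {ends : E → V × V}
    (h : ∀ T : Finset V, T.Nonempty → T ≠ univ → ∃ e, ((ends e).1 ∈ T ∧ (ends e).2 ∉ T) ∨
      ((ends e).2 ∈ T ∧ (ends e).1 ∉ T)) (v : V) : IsConnected ends := by
  classical
  refine connected_of_cuts _ v ?_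
  intro T hv hT
  obtain ⟨e, he⟩ := h (univ.filter fun x => x ∈ T) ⟨v, by simpa using hv⟩ (fun hcon => hT (by
    ext x
    have : x ∈ (univ.filter fun x => x ∈ T) := by rw [hcon]; exact mem_univ _
    simpa using this))
  simp only [mem_filter, mem_univ, true_and] at he
  rcases he with ⟨h1, h2⟩ | ⟨h1, h2⟩
  · exact ⟨_, h1, _, h2, (adj_iff ends univ _ _).mpr
      ⟨fun hc => h2 (hc ▸ h1), e, mem_univ _, Or.inl rfl⟩⟩
  · exact ⟨_, h1, _, h2, (adj_iff ends univ _ _).mpr
      ⟨fun hc => h2 (hc ▸ h1), e, mem_univ _, Or.inr rfl⟩⟩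

theorem connected_G : IsConnected G := by
  refine connected_of_three ?_ 0
  decide +kernel

theorem connected_H : IsConnected H := by
  refine connected_of_three ?_ 0
  decide +kernel

theorem nbr_H : ∀ w : Fin 6, w ∉ ({0, 3} : Finset (Fin 6)) → w ≠ 5 →
    ∀ e : Fin 13, ¬ (H e = (5, w) ∨ H e = (w, 5)) := by
  decide +kernel

theorem not_three_H : ¬ IsThreeConnected H := by
  rintro ⟨-, h⟩
  have h1 := (h {0, 3} (by decide)).preconnected ⟨5, by decide⟩ ⟨1, by decide⟩
  have h2 : ∀ w, ¬ ((under H univ).induce {v | v ∉ ({0, 3} : Finset (Fin 6))}).Adj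
      ⟨5, by decide⟩ w := by
    rintro ⟨w, hw⟩ hadj
    rw [SimpleGraph.comap_adj, adj_iff] at hadj
    obtain ⟨hne, e, _, he⟩ := hadj
    exact nbr_H w hw (fun hc => hne hc.symm) e he
  obtain ⟨p⟩ := h1
  cases p with
  | cons hadj _ => exact h2 _ hadj

/-- There are two connected multigraphs with the same Tutte polynomial one of which is 3-connected
while the other one is not. -/
theorem result : ∃ (n m : ℕ) (G H : Fin m → Fin n × Fin n), IsConnected G ∧ IsConnected H ∧
    tutte G = tutte H ∧ IsThreeConnected G ∧ ¬ IsThreeConnected H :=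
  ⟨6, 13, G, H, connected_G, connected_H, tutte_G_H, three_G, not_three_H⟩

end Pool.Agent.Results.MP_f03b0a_co.ThreeConnectivity
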